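import Pool.Agent.H14.T1.S3

/-!
# T1: BKD, FSQ
-/

set_option autoImplicit false

namespace Pool.T1.BKDp

open Matrix Polynomial Pool.HYP Pool.T1

theorem bkd : BKDStmt := by
  intro F E _ _ _ d ω l hl
  classical
  have hfd : FiniteDimensional F E := Module.Basis.finiteDimensional_of_finite ω
  refine ⟨?_, ?_⟩
  · intro h
    obtain ⟨v, hv, hv0⟩ := Matrix.exists_mulVec_eq_zero_iff.2 h
    set y : E := ∑ j, v j • ω j with hy
    have h1 : ∀ i, l (ω i * y) = 0 := by
      intro i
      have := congrFun hv0 i
      rw [Matrix.mulVec, dotProduct, Pi.zero_apply] at this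
      rw [hy, Finset.mul_sum, map_sum, ← this]
      apply Finset.sum_congr rfl
      intro j _
      rw [mul_smul_comm, map_smul, smul_eq_mul, Matrix.of_apply, mul_comm]
    have h2 : ∀ x, l (x * y) = 0 := by
      intro x
      rw [← ω.sum_repr x, Finset.sum_mul, map_sum]
      apply Finset.sum_eq_zero
      intro i _
      rw [smul_mul_assoc, map_smul, h1, smul_zero]
    have h3 : y ≠ 0 := by
      intro h4
      apply hv
      have h5 := Fintype.linearIndependent_iff.1 ω.linearIndependent v (by rw [← hy]; exact h4)
      exact funext h5
    apply hl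
    ext x
    have h4 := h2 (x * y⁻¹)
    rw [mul_assoc, inv_mul_cancel₀ h3, mul_one] at h4
    rw [h4]
    rfl
  · intro k M
    set f : E →+* Matrix (Fin d) (Fin d) F := (Algebra.leftMulMatrix ω).toRingHom with hf
    set S : Matrix (Fin d) (Fin d) F := Matrix.of fun i j => l (ω i * ω j) with hS
    have h1 : (Matrix.of fun p q : Fin k × Fin d => l (ω p.2 * ω q.2 * M p.1 q.1)) =
        Matrix.kroneckerMap (· * ·) (1 : Matrix (Fin k) (Fin k) F) S *
        ((M.map f).comp (Fin k) (Fin k) (Fin d) (Fin d) F) := by
      ext ⟨i, a⟩ ⟨j, c⟩
      rw [Matrix.mul_apply, Fintype.sum_prod_type]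
      rw [Finset.sum_eq_single i]
      · have h3 : ∀ b : Fin d, ((M.map f).comp (Fin k) (Fin k) (Fin d) (Fin d) F)
            (i, b) (j, c) = ω.repr (M i j * ω c) b := by
          intro b
          have : ((M.map f).comp (Fin k) (Fin k) (Fin d) (Fin d) F)
            (i, b) (j, c) = Algebra.leftMulMatrix ω (M i j) b c := rfl
          rw [this, Algebra.leftMulMatrix_eq_repr_mul]
        simp only [h3, Matrix.kroneckerMap_apply, Matrix.one_apply_eq, one_mul]
        change l (ω a * ω c * M i j) = _
        have h4 : ω a * ω c * M i j = ω a * (M i j * ω c) := by ring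
        rw [h4]
        conv_lhs => rw [← ω.sum_repr (M i j * ω c)]
        rw [Finset.mul_sum, map_sum]
        apply Finset.sum_congr rfl
        intro b _
        rw [mul_smul_comm, map_smul, smul_eq_mul, hS, Matrix.of_apply, mul_comm]
      · intro i' _ hi'
        apply Finset.sum_eq_zero
        intro b _
        rw [Matrix.kroneckerMap_apply, Matrix.one_apply_ne (Ne.symm hi'), zero_mul, zero_mul]
      · simp
    rw [h1, Matrix.det_mul, Matrix.det_kronecker, Matrix.det_one, one_pow, one_mul,
      Fintype.card_fin, ← Matrix.det_det]
    congr 1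
    rw [Algebra.norm_eq_matrix_det ω]
    rfl

theorem fsq : FSQStmt := by
  refine ⟨?_, ?_⟩
  · intro F _ _ h2 ι s δ hδ
    classical
    have := Fintype.ofFinite F
    have hF : ringChar F ≠ 2 := by
      intro h
      apply h2
      have := ringChar.Nat.cast_ringChar (R := F)
      rw [h] at this
      exact_mod_cast this
    have hset : {i | i ∈ s ∧ ¬ IsSquare (δ i)} = ((s.filter fun i => ¬ IsSquare (δ i)) : Set ι) := by
      ext i
      simp
    rw [hset, Set.ncard_coe_finset]
    induction s using Finset.induction_on with
    | empty => simp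
    | insert a s ha ih =>
      have hδs : ∀ i ∈ s, δ i ≠ 0 := fun i hi => hδ i (Finset.mem_insert_of_mem hi)
      have hda : δ a ≠ 0 := hδ a (Finset.mem_insert_self a s)
      have hprod : ∏ i ∈ s, δ i ≠ 0 := Finset.prod_ne_zero_iff.2 hδs
      have ih' := ih hδs (by ext i; simp)
      rw [Finset.prod_insert ha, Finset.filter_insert]
      have key : ∀ x y : F, x ≠ 0 → y ≠ 0 → (IsSquare (x * y) ↔ (IsSquare x ↔ IsSquare y)) := by
        intro x y hx hy
        constructor
        · intro hxy
          constructor
          · intro hx'
            have := hxy.div hx'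
            rwa [mul_div_cancel_left₀ _ hx] at this
          · intro hy'
            have := hxy.div hy'
            rwa [mul_div_cancel_right₀ _ hy] at this
        · intro hiff
          by_cases hx' : IsSquare x
          · exact hx'.mul (hiff.1 hx')
          · have hy' : ¬ IsSquare y := fun h => hx' (hiff.2 h)
            rw [← quadraticChar_one_iff_isSquare (mul_ne_zero hx hy), map_mul,
              (quadraticChar_neg_one_iff_not_isSquare).2 hx',
              (quadraticChar_neg_one_iff_not_isSquare).2 hy']
            norm_num
      rw [key _ _ hda hprod]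
      refine (iff_congr Iff.rfl ih').trans ?_
      by_cases hsq : IsSquare (δ a)
      · simp [hsq]
      · rw [if_pos hsq, Finset.card_insert_of_notMem (by simp [ha]), Nat.even_add_one]
        simp [hsq]
  · intro F E _ _ _ _ h2 a ha
    have hFfin : Finite F := Finite.of_injective _ (algebraMap F E).injective
    have := Fintype.ofFinite F
    have := Fintype.ofFinite E
    have h2E : (2 : E) ≠ 0 := by
      intro h
      apply h2
      apply (algebraMap F E).injective
      rw [map_zero, map_ofNat]
      exact h
    have hF : ringChar F ≠ 2 := by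
      intro h
      apply h2
      have := ringChar.Nat.cast_ringChar (R := F)
      rw [h] at this
      exact_mod_cast this
    have hE : ringChar E ≠ 2 := by
      intro h
      apply h2E
      have := ringChar.Nat.cast_ringChar (R := E)
      rw [h] at this
      exact_mod_cast this
    have hN0 : Algebra.norm F a ≠ 0 := by
      rw [Ne, Algebra.norm_eq_zero_iff]
      exact ha
    rw [FiniteField.isSquare_iff hF hN0, FiniteField.isSquare_iff hE ha]
    have hinj := (algebraMap F E).injective
    rw [← hinj.eq_iff, map_pow, map_one, FiniteField.algebraMap_norm_eq_pow, ← pow_mul]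
    have hcard : (Nat.card E - 1) / (Nat.card F - 1) * (Fintype.card F / 2) =
        Fintype.card E / 2 := by
      rw [Nat.card_eq_fintype_card, Nat.card_eq_fintype_card]
      have hoddF := FiniteField.odd_card_of_char_ne_two hF
      have hoddE := FiniteField.odd_card_of_char_ne_two hE
      have hdiv : Fintype.card F - 1 ∣ Fintype.card E - 1 := by
        rw [Module.card_eq_pow_finrank (K := F) (V := E)]
        have := Nat.sub_dvd_pow_sub_pow (Fintype.card F) 1 (Module.finrank F E)
        rwa [one_pow] at this
      obtain ⟨c, hc⟩ := hdiv
      have hFpos : 0 < Fintype.card F - 1 := by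
        have := Fintype.one_lt_card (α := F)
        omega
      rw [hc, Nat.mul_div_cancel_left _ hFpos]
      have h5 : Fintype.card F / 2 * 2 = Fintype.card F - 1 := by omega
      have h6 : Fintype.card E / 2 * 2 = Fintype.card E - 1 := by omega
      have h7 : c * (Fintype.card F / 2) * 2 = Fintype.card E / 2 * 2 := by
        rw [h6, hc, mul_assoc, h5]
        ring
      omega
    rw [hcard]

end Pool.T1.BKDp
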