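import Mathlib

/-!
# T1: the discriminant of a metabolic form is a square
-/

set_option autoImplicit false

namespace Pool.T1

open Matrix Polynomial

/-- The determinant of the matrix of a hyperbolic space. -/
lemma det_swap_one {F : Type} [CommRing F] (m : ℕ) :
    (Matrix.fromBlocks (0 : Matrix (Fin m) (Fin m) F) (1 : Matrix (Fin m) (Fin m) F)
      (1 : Matrix (Fin m) (Fin m) F) (0 : Matrix (Fin m) (Fin m) F)).det = (-1) ^ m := by
  have h1 : Matrix.fromBlocks (0 : Matrix (Fin m) (Fin m) F) (1 : Matrix (Fin m) (Fin m) F)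
        (1 : Matrix (Fin m) (Fin m) F) (0 : Matrix (Fin m) (Fin m) F) *
      Matrix.fromBlocks (1 : Matrix (Fin m) (Fin m) F) (0 : Matrix (Fin m) (Fin m) F)
        (1 : Matrix (Fin m) (Fin m) F) (1 : Matrix (Fin m) (Fin m) F) =
      Matrix.fromBlocks (1 : Matrix (Fin m) (Fin m) F) (1 : Matrix (Fin m) (Fin m) F)
        (1 : Matrix (Fin m) (Fin m) F) (0 : Matrix (Fin m) (Fin m) F) := by
    rw [Matrix.fromBlocks_multiply]
    simp
  have h2 := congrArg Matrix.det h1
  rw [Matrix.det_mul, Matrix.det_fromBlocks_zero₁₂, Matrix.det_fromBlocks_one₁₁] at h2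
  simp only [Matrix.det_one, mul_one, zero_sub] at h2
  rw [h2, Matrix.det_neg, Matrix.det_one, Fintype.card_fin, mul_one]

/-- The determinant of a symmetric matrix with a zero block of half the size. -/
lemma det_met {F : Type} [CommRing F] (m : ℕ) (B D : Matrix (Fin m) (Fin m) F) :
    (Matrix.fromBlocks 0 B Bᵀ D).det = (-1) ^ m * B.det ^ 2 := by
  have h1 : Matrix.fromBlocks (0 : Matrix (Fin m) (Fin m) F) 1 1 0 *
      Matrix.fromBlocks 0 B Bᵀ D = Matrix.fromBlocks Bᵀ D 0 B := by
    rw [Matrix.fromBlocks_multiply]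
    simp
  have h2 := congrArg Matrix.det h1
  rw [Matrix.det_mul, Matrix.det_fromBlocks_zero₂₁, det_swap_one, Matrix.det_transpose] at h2
  have h3 : ((-1 : F) ^ m) * (-1) ^ m = 1 := by
    rw [← mul_pow]
    simp
  calc (Matrix.fromBlocks 0 B Bᵀ D).det
      = ((-1 : F) ^ m * (-1) ^ m) * (Matrix.fromBlocks 0 B Bᵀ D).det := by rw [h3, one_mul]
    _ = (-1) ^ m * B.det ^ 2 := by rw [mul_assoc, h2, sq]

/-- The discriminant of a metabolic form is a square. -/
theorem met_sq {F : Type} [Field F] {ι : Type} [Fintype ι] [DecidableEq ι] (m : ℕ)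
    (hm : Fintype.card ι = 2 * m) (H : Matrix ι ι F) (hH : Hᵀ = H)
    (v : Fin m → ι → F) (hv : LinearIndependent F v) (h0 : ∀ i j, v i ⬝ᵥ (H *ᵥ v j) = 0) :
    IsSquare ((-1) ^ m * H.det) := by
  classical
  -- complement
  obtain ⟨L', hL'⟩ := Submodule.exists_isCompl (Submodule.span F (Set.range v))
  have hfr : Module.finrank F (Submodule.span F (Set.range v)) = m := by
    rw [finrank_span_eq_card hv, Fintype.card_fin]
  have hfr' : Module.finrank F L' = m := by
    have := Submodule.finrank_add_eq_of_isCompl hL'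
    rw [hfr, Module.finrank_pi, hm] at this
    omega
  let bL : Module.Basis (Fin m) F (Submodule.span F (Set.range v)) := Module.Basis.span hv
  let bL' : Module.Basis (Fin m) F L' := Module.finBasisOfFinrankEq F L' hfr'
  let b : Module.Basis (Fin m ⊕ Fin m) F (ι → F) :=
    (bL.prod bL').map (Submodule.prodEquivOfIsCompl _ _ hL')
  have hbl : ∀ i, b (Sum.inl i) = v i := by
    intro i
    simp [b, bL, Module.Basis.span_apply]
  have e : ι ≃ Fin m ⊕ Fin m := Fintype.equivOfCardEq (by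
    rw [hm, Fintype.card_sum, Fintype.card_fin]
    ring)
  let P : Matrix ι (Fin m ⊕ Fin m) F := Matrix.of fun i j => b j i
  let Q : Matrix ι ι F := P.submatrix id e
  have hQ : Q.det ≠ 0 := by
    have h1 : LinearIndependent F (fun j => Q.col j) := by
      have h2 : LinearIndependent F (b ∘ e) := b.linearIndependent.comp e e.injective
      exact h2
    have h3 : IsUnit Q := Matrix.linearIndependent_cols_iff_isUnit.1 h1
    exact ((Matrix.isUnit_iff_isUnit_det Q).1 h3).ne_zero
  let B : Matrix (Fin m) (Fin m) F := Matrix.of fun i j => v i ⬝ᵥ (H *ᵥ b (Sum.inr j))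
  let D : Matrix (Fin m) (Fin m) F := Matrix.of fun i j => b (Sum.inr i) ⬝ᵥ (H *ᵥ b (Sum.inr j))
  have hsym : ∀ x y : ι → F, x ⬝ᵥ (H *ᵥ y) = y ⬝ᵥ (H *ᵥ x) := by
    intro x y
    rw [Matrix.dotProduct_mulVec, ← Matrix.mulVec_transpose, hH, dotProduct_comm]
  have hPHP : Pᵀ * H * P = Matrix.fromBlocks 0 B Bᵀ D := by
    have hg : ∀ i j, (Pᵀ * H * P) i j = b i ⬝ᵥ (H *ᵥ b j) := by
      intro i j
      rw [Matrix.mul_assoc, Matrix.mul_apply]
      rfl
    ext i j
    rw [hg]
    rcases i with i | i <;> rcases j with j | j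
    · rw [hbl, hbl, h0]; rfl
    · rw [hbl]; rfl
    · rw [hbl, hsym]; rfl
    · rfl
  have hdet : (Qᵀ * H * Q).det = (-1) ^ m * B.det ^ 2 := by
    have h1 : Qᵀ * H * Q = (Pᵀ * H * P).submatrix e e := by
      ext i j
      rfl
    rw [h1, hPHP, Matrix.det_submatrix_equiv_self, det_met]
  rw [Matrix.det_mul, Matrix.det_mul, Matrix.det_transpose] at hdet
  refine ⟨B.det / Q.det, ?_⟩
  have h3 : ((-1 : F) ^ m) * (-1) ^ m = 1 := by
    rw [← mul_pow]
    simp
  rw [div_mul_div_comm, eq_div_iff (mul_ne_zero hQ hQ)]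
  calc (-1) ^ m * H.det * (Q.det * Q.det)
      = (-1) ^ m * (Q.det * H.det * Q.det) := by ring
    _ = ((-1 : F) ^ m * (-1) ^ m) * (B.det * B.det) := by rw [hdet]; ring
    _ = B.det * B.det := by rw [h3, one_mul]

end Pool.T1
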