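import Pool.Agent.H41.HYP.Base

/-!
# T1: the residue
-/

set_option autoImplicit false

namespace Pool.T1

open Matrix Polynomial Pool.HYP

/-- `tau` as a linear map. -/
noncomputable def tauL {R : Type} [CommRing R] (f : R[X]) : R[X] →ₗ[R] R :=
  (Polynomial.lcoeff R (f.natDegree - 1)).comp (Polynomial.modByMonicHom f)

lemma tauL_apply {R : Type} [CommRing R] (f p : R[X]) : tauL f p = tau f p := rfl

section Field

variable {F : Type} [Field F]

lemma tau_add (f p q : F[X]) : tau f (p + q) = tau f p + tau f q := (tauL f).map_add p q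

lemma tau_zero (f : F[X]) : tau f 0 = 0 := (tauL f).map_zero

lemma tau_sub (f p q : F[X]) : tau f (p - q) = tau f p - tau f q := (tauL f).map_sub p q

lemma tau_C_mul (f : F[X]) (c : F) (p : F[X]) : tau f (C c * p) = c * tau f p := by
  rw [← Polynomial.smul_eq_C_mul]
  exact (tauL f).map_smul c p

lemma tau_sum (f : F[X]) {ι : Type} (s : Finset ι) (p : ι → F[X]) :
    tau f (∑ i ∈ s, p i) = ∑ i ∈ s, tau f (p i) := by
  have := map_sum (tauL f) p s
  exact this

lemma tau_mod (f p : F[X]) : tau f (p %ₘ f) = tau f p := by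
  by_cases hf : f.Monic
  · unfold tau
    rw [(Polynomial.modByMonic_eq_self_iff hf).2 (Polynomial.degree_modByMonic_lt p hf)]
  · rw [Polynomial.modByMonic_eq_of_not_monic _ hf]

lemma tau_dvd {f : F[X]} (hf : f.Monic) {p : F[X]} (h : f ∣ p) : tau f p = 0 := by
  unfold tau
  rw [(Polynomial.modByMonic_eq_zero_iff_dvd hf).2 h, Polynomial.coeff_zero]

lemma tau_congr {f : F[X]} (hf : f.Monic) {p q : F[X]} (h : f ∣ p - q) : tau f p = tau f q := by
  have := tau_dvd hf h
  rw [tau_sub, sub_eq_zero] at this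
  exact this

lemma tau_small {f : F[X]} (hf : f.Monic) {p : F[X]} (h : DegLe p ((f.natDegree : ℤ) - 2)) :
    tau f p = 0 := by
  by_cases hp : p = 0
  · rw [hp, tau_zero]
  have h1 := h hp
  have h2 : p.natDegree < f.natDegree - 1 := by omega
  unfold tau
  rw [(Polynomial.modByMonic_eq_self_iff hf).2]
  · exact Polynomial.coeff_eq_zero_of_natDegree_lt h2
  · apply Polynomial.degree_lt_degree
    omega

lemma tau_mul_right {P u : F[X]} (hP : P.Monic) (hu : u.Monic) (hd : 1 ≤ P.natDegree)
    (p : F[X]) : tau (P * u) (p * u) = tau P p := by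
  have hPu : (P * u).Monic := hP.mul hu
  have h1 : (p * u) %ₘ (P * u) = (p %ₘ P) * u := by
    refine (Polynomial.div_modByMonic_unique (p /ₘ P) ((p %ₘ P) * u) hPu ⟨?_, ?_⟩).2
    · calc (p %ₘ P) * u + P * u * (p /ₘ P) = (p %ₘ P + P * (p /ₘ P)) * u := by ring
        _ = p * u := by rw [Polynomial.modByMonic_add_div p]
    · rw [Polynomial.degree_mul, Polynomial.degree_mul]
      have h2 := Polynomial.degree_modByMonic_lt p hP
      have h3 : u.degree ≠ ⊥ := by
        rw [Ne, Polynomial.degree_eq_bot]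
        exact hu.ne_zero
      exact (WithBot.add_lt_add_iff_right h3).2 h2
  unfold tau
  rw [h1, hP.natDegree_mul hu]
  have h4 : P.natDegree + u.natDegree - 1 = (P.natDegree - 1) + u.natDegree := by omega
  rw [h4, Polynomial.coeff_mul_add_eq_of_natDegree_le]
  · rw [hu.coeff_natDegree, mul_one]
  · by_cases h0 : p %ₘ P = 0
    · rw [h0]
      simp
    have h5 := Polynomial.natDegree_lt_natDegree h0 (Polynomial.degree_modByMonic_lt p hP)
    omega
  · exact le_refl _

lemma dvd_of_tau {f : F[X]} (hf : f.Monic) {p : F[X]}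
    (h : ∀ i < f.natDegree, tau f (X ^ i * p) = 0) : f ∣ p := by
  rw [← Polynomial.modByMonic_eq_zero_iff_dvd hf]
  by_contra h0
  set r := p %ₘ f with hr
  have h1 : r.natDegree < f.natDegree :=
    Polynomial.natDegree_lt_natDegree h0 (Polynomial.degree_modByMonic_lt p hf)
  have h2 := h (f.natDegree - 1 - r.natDegree) (by omega)
  have h3 : tau f (X ^ (f.natDegree - 1 - r.natDegree) * p) =
      tau f (X ^ (f.natDegree - 1 - r.natDegree) * r) := by
    apply tau_congr hf
    rw [← mul_sub]
    apply Dvd.dvd.mul_left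
    have h4 := Polynomial.modByMonic_add_div p f
    refine ⟨p /ₘ f, ?_⟩
    rw [sub_eq_iff_eq_add, hr]
    rw [add_comm]
    exact h4.symm
  rw [h3] at h2
  unfold tau at h2
  have h5 : (X ^ (f.natDegree - 1 - r.natDegree) * r).natDegree = f.natDegree - 1 := by
    rw [Polynomial.natDegree_X_pow_mul _ h0]
    omega
  have h6 : X ^ (f.natDegree - 1 - r.natDegree) * r ≠ 0 :=
    mul_ne_zero (pow_ne_zero _ Polynomial.X_ne_zero) h0
  rw [(Polynomial.modByMonic_eq_self_iff hf).2] at h2
  · apply h6
    rw [← Polynomial.leadingCoeff_eq_zero, Polynomial.leadingCoeff, h5]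
    exact h2
  · apply Polynomial.degree_lt_degree
    omega

end Field

end Pool.T1
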