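import Pool.Agent.H14.T1.S3
import Pool.Agent.H14.T1.Met
import Pool.Agent.H14.T1.Tau

/-!
# T1: LAGP: the Lagrangian subspace
-/

set_option autoImplicit false

namespace Pool.T1.LAGPp

open Matrix Polynomial Pool.HYP Pool.T1

section DegLe

variable {F : Type} [Field F]

lemma dzero (m : ℤ) : DegLe (0 : F[X]) m := fun h => absurd rfl h

lemma dmono {p : F[X]} {m n : ℤ} (h : DegLe p m) (hmn : m ≤ n) : DegLe p n :=
  fun hp => (h hp).trans hmn

lemma dadd {p q : F[X]} {m : ℤ} (hp : DegLe p m) (hq : DegLe q m) : DegLe (p + q) m := by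
  intro h
  by_cases hp0 : p = 0
  · subst hp0
    rw [zero_add] at h ⊢
    exact hq h
  by_cases hq0 : q = 0
  · subst hq0
    rw [add_zero] at h ⊢
    exact hp h
  have h1 := Polynomial.natDegree_add_le p q
  have h2 := hp hp0
  have h3 := hq hq0
  have h4 : ((p + q).natDegree : ℤ) ≤ max (p.natDegree : ℤ) (q.natDegree : ℤ) := by
    rw [← Nat.cast_max]
    exact_mod_cast h1
  exact h4.trans (max_le h2 h3)

lemma dsum {α : Type} (s : Finset α) (p : α → F[X]) {m : ℤ} (h : ∀ a ∈ s, DegLe (p a) m) :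
    DegLe (∑ a ∈ s, p a) m := by
  classical
  induction s using Finset.induction_on with
  | empty => exact dzero m
  | insert a s ha ih =>
    rw [Finset.sum_insert ha]
    exact dadd (h a (Finset.mem_insert_self a s))
      (ih fun b hb => h b (Finset.mem_insert_of_mem hb))

lemma dmul {p q : F[X]} {m n : ℤ} (hp : DegLe p m) (hq : DegLe q n) : DegLe (p * q) (m + n) := by
  intro h
  have hp0 : p ≠ 0 := left_ne_zero_of_mul h
  have hq0 : q ≠ 0 := right_ne_zero_of_mul h
  rw [Polynomial.natDegree_mul hp0 hq0]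
  push_cast
  exact add_le_add (hp hp0) (hq hq0)

lemma dprod {α : Type} (s : Finset α) (p : α → F[X]) (m : α → ℤ) (h : ∀ a ∈ s, DegLe (p a) (m a)) :
    DegLe (∏ a ∈ s, p a) (∑ a ∈ s, m a) := by
  classical
  induction s using Finset.induction_on with
  | empty =>
    intro _
    simp
  | insert a s ha ih =>
    rw [Finset.prod_insert ha, Finset.sum_insert ha]
    exact dmul (h a (Finset.mem_insert_self a s))
      (ih fun b hb => h b (Finset.mem_insert_of_mem hb))

lemma dC (c : F) {m : ℤ} (hm : 0 ≤ m) : DegLe (C c : F[X]) m := by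
  intro _
  rw [Polynomial.natDegree_C]
  exact_mod_cast hm

lemma dCmul (c : F) {p : F[X]} {m : ℤ} (h : DegLe p m) : DegLe (C c * p) m := by
  have := dmul (dC c (le_refl 0)) h
  rwa [zero_add] at this

lemma dneg {p : F[X]} {m : ℤ} (h : DegLe p m) : DegLe (-p) m := by
  intro hp
  rw [Polynomial.natDegree_neg]
  exact h (fun h0 => hp (by rw [h0, neg_zero]))

variable {ι : Type} [Fintype ι] [DecidableEq ι]

lemma ddet (A : Matrix ι ι F[X]) (r c : ι → ℤ) (h : ∀ i j, DegLe (A i j) (r i + c j)) :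
    DegLe A.det (∑ i, r i + ∑ i, c i) := by
  rw [Matrix.det_apply]
  apply dsum
  intro σ _
  have h1 : DegLe (∏ i, A (σ i) i) (∑ i, (r (σ i) + c i)) := by
    apply dprod
    intro i _
    exact h (σ i) i
  rw [Finset.sum_add_distrib, Equiv.sum_comp σ r] at h1
  rcases Int.units_eq_one_or (Equiv.Perm.sign σ) with h2 | h2
  · rw [h2, one_smul]
    exact h1
  · rw [h2, Units.neg_smul, one_smul]
    exact dneg h1

lemma dadj (G : Matrix ι ι F[X]) (b : ι → ℤ) (h : ∀ i j, DegLe (G i j) (b i + b j)) (i j : ι) :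
    DegLe (G.adjugate i j) (2 * ∑ i, b i - b i - b j) := by
  rw [Matrix.adjugate_apply]
  have h1 := ddet (G.updateRow j (Pi.single i 1)) (Function.update b j (-b i)) b (by
    intro k l
    by_cases hk : k = j
    · subst hk
      rw [Matrix.updateRow_self, Function.update_self]
      by_cases hl : l = i
      · subst hl
        rw [Pi.single_eq_same]
        intro _
        simp
      · rw [Pi.single_eq_of_ne hl]
        exact dzero _
    · rw [Matrix.updateRow_ne hk, Function.update_of_ne hk]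
      exact h k l)
  have h2 : ∑ k, Function.update b j (-b i) k = ∑ k, b k - b j - b i := by
    rw [Finset.sum_update_of_mem (Finset.mem_univ j)]
    have h3 : ∑ k ∈ Finset.univ \ {j}, b k = ∑ k, b k - b j := by
      rw [← Finset.sum_sdiff (Finset.subset_univ {j} : ({j} : Finset ι) ⊆ Finset.univ)]
      simp
    rw [h3]
    ring
  rw [h2] at h1
  exact dmono h1 (by linarith)

end DegLe

section Lead

variable {F : Type} [Field F]

lemma tau_lead {f : F[X]} (hf : f.Monic) {p : F[X]} (h0 : p %ₘ f ≠ 0) :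
    tau f (X ^ (f.natDegree - 1 - (p %ₘ f).natDegree) * p) ≠ 0 := by
  set r := p %ₘ f with hr
  have h1 : r.natDegree < f.natDegree :=
    Polynomial.natDegree_lt_natDegree h0 (Polynomial.degree_modByMonic_lt p hf)
  have h3 : tau f (X ^ (f.natDegree - 1 - r.natDegree) * p) =
      tau f (X ^ (f.natDegree - 1 - r.natDegree) * r) := by
    apply tau_congr hf
    rw [← mul_sub]
    apply Dvd.dvd.mul_left
    have h4 := Polynomial.modByMonic_add_div p f
    refine ⟨p /ₘ f, ?_⟩
    rw [sub_eq_iff_eq_add, hr]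
    rw [add_comm]
    exact h4.symm
  rw [h3]
  intro h2
  unfold tau at h2
  have h5 : (X ^ (f.natDegree - 1 - r.natDegree) * r).natDegree = f.natDegree - 1 := by
    rw [Polynomial.natDegree_X_pow_mul _ h0]
    omega
  have h6 : X ^ (f.natDegree - 1 - r.natDegree) * r ≠ 0 :=
    mul_ne_zero (pow_ne_zero _ Polynomial.X_ne_zero) h0
  rw [(Polynomial.modByMonic_eq_self_iff hf).2] at h2
  · apply h6
    rw [← Polynomial.leadingCoeff_eq_zero, Polynomial.leadingCoeff, h5]
    exact h2
  · apply Polynomial.degree_lt_degree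
    omega

end Lead

section Link

variable {F : Type} [Field F] {ι : Type} [Fintype ι] [DecidableEq ι] (G : Matrix ι ι F[X])

lemma lk_add (x x' y : ι → F[X]) : lk G (x + x') y = lk G x y + lk G x' y := by
  unfold lk
  rw [add_dotProduct, mul_add, tau_add]

lemma lk_smul (c : F) (x y : ι → F[X]) : lk G (C c • x) y = c * lk G x y := by
  unfold lk
  rw [smul_dotProduct, smul_eq_mul, mul_left_comm, tau_C_mul]

lemma lk_zero (y : ι → F[X]) : lk G 0 y = 0 := by
  unfold lk
  rw [zero_dotProduct, mul_zero, tau_zero]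

lemma lk_sum {κ : Type} (s : Finset κ) (x : κ → ι → F[X]) (y : ι → F[X]) :
    lk G (∑ e ∈ s, x e) y = ∑ e ∈ s, lk G (x e) y := by
  classical
  induction s using Finset.induction_on with
  | empty =>
    rw [Finset.sum_empty, Finset.sum_empty]
    exact lk_zero G y
  | insert a s ha ih =>
    rw [Finset.sum_insert ha, Finset.sum_insert ha, lk_add, ih]

variable {G}

lemma adj_symm (hG : Gᵀ = G) : G.adjugateᵀ = G.adjugate := by
  rw [Matrix.adjugate_transpose, hG]

lemma lk_symm (hG : Gᵀ = G) (x y : ι → F[X]) : lk G x y = lk G y x := by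
  unfold lk
  congr 2
  rw [Matrix.dotProduct_mulVec, ← Matrix.mulVec_transpose, adj_symm hG, dotProduct_comm]

lemma fmonic (h0 : G.det ≠ 0) : (C G.det.leadingCoeff⁻¹ * G.det).Monic := by
  rw [mul_comm]
  exact Polynomial.monic_mul_leadingCoeff_inv h0

lemma fdeg (h0 : G.det ≠ 0) : (C G.det.leadingCoeff⁻¹ * G.det).natDegree = G.det.natDegree := by
  rw [Polynomial.natDegree_C_mul]
  exact inv_ne_zero (Polynomial.leadingCoeff_ne_zero.2 h0)

lemma lk_im (h0 : G.det ≠ 0) (z y : ι → F[X]) : lk G y (G *ᵥ z) = 0 := by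
  unfold lk
  rw [Matrix.mulVec_mulVec, Matrix.adjugate_mul, Matrix.smul_mulVec, Matrix.one_mulVec,
    dotProduct_smul, smul_eq_mul, ← mul_assoc]
  exact tau_dvd (fmonic h0) (Dvd.intro _ rfl)

end Link

section Main

variable {F : Type} [Field F] {ι : Type} [Fintype ι] [DecidableEq ι] {G : Matrix ι ι F[X]}

/-- The subspace of the vectors of small degree. -/
def Small (b : ι → ℤ) (x : ι → F[X]) : Prop := ∀ i, DegLe (x i) (b i - 1)

lemma iso (h0 : G.det ≠ 0) (b : ι → ℤ)
    (hdeg : ∀ i j, DegLe (G i j) (b i + b j)) (hb : (G.det.natDegree : ℤ) = 2 * ∑ i, b i)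
    (x y : ι → F[X]) (hx : Small b x) (hy : Small b y) : lk G x y = 0 := by
  unfold lk
  apply tau_small (fmonic h0)
  rw [fdeg h0]
  apply dCmul
  unfold dotProduct
  apply dsum
  intro i _
  unfold Matrix.mulVec dotProduct
  rw [Finset.mul_sum]
  apply dsum
  intro j _
  have h1 := dmul (hx i) (dmul (dadj G b hdeg i j) (hy j))
  refine dmono h1 ?_
  rw [hb]
  linarith

lemma perp (h0 : G.det ≠ 0) (b : ι → ℤ)
    (hdeg : ∀ i j, DegLe (G i j) (b i + b j))
    (x : ι → F[X]) (hx : ∀ y, Small b y → lk G y x = 0) :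
    ∃ z : ι → F[X], Small b (x - G *ᵥ z) := by
  set f := C G.det.leadingCoeff⁻¹ * G.det with hf
  have hfm : f.Monic := fmonic h0
  set p : ι → F[X] := fun i => C G.det.leadingCoeff⁻¹ * (G.adjugate *ᵥ x) i with hp
  set r : ι → F[X] := fun i => p i %ₘ f with hr
  set z : ι → F[X] := fun i => p i /ₘ f with hz
  have hpz : p = f • z + r := by
    ext1 i
    rw [Pi.add_apply, Pi.smul_apply, smul_eq_mul, add_comm]
    exact (Polynomial.modByMonic_add_div (p i) f).symm
  have hrd : ∀ i, DegLe (r i) (f.natDegree - b i - 1) := by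
    intro i hi
    by_contra hlt
    push Not at hlt
    have h1 : (r i).natDegree < f.natDegree :=
      Polynomial.natDegree_lt_natDegree hi (Polynomial.degree_modByMonic_lt _ hfm)
    have h2 := tau_lead hfm hi
    apply h2
    have h3 := hx (Pi.single i (X ^ (f.natDegree - 1 - (r i).natDegree))) (by
      intro j
      by_cases hj : j = i
      · subst hj
        rw [Pi.single_eq_same]
        intro _
        rw [Polynomial.natDegree_X_pow]
        omega
      · rw [Pi.single_eq_of_ne hj]
        exact dzero _)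
    unfold lk at h3
    rw [single_dotProduct] at h3
    rw [← h3]
    congr 1
    simp only [hp]
    ring
  refine ⟨z, ?_⟩
  have hGp : G *ᵥ p = f • x := by
    have h1 : p = C G.det.leadingCoeff⁻¹ • (G.adjugate *ᵥ x) := by
      ext1 i
      rfl
    rw [h1, Matrix.mulVec_smul, Matrix.mulVec_mulVec, Matrix.mul_adjugate, Matrix.smul_mulVec,
      Matrix.one_mulVec, smul_smul]
  have hGr : f • (x - G *ᵥ z) = G *ᵥ r := by
    have h1 : r = p - f • z := by
      rw [hpz]
      simp
    rw [h1, Matrix.mulVec_sub, hGp, Matrix.mulVec_smul, smul_sub]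
  intro i hi
  have h2 : DegLe ((G *ᵥ r) i) (b i + f.natDegree - 1) := by
    unfold Matrix.mulVec dotProduct
    apply dsum
    intro j _
    refine dmono (dmul (hdeg i j) (hrd j)) ?_
    linarith
  have h3 : (G *ᵥ r) i = f * (x - G *ᵥ z) i := by
    rw [← hGr]
    rfl
  rw [h3] at h2
  have h4 := h2 (mul_ne_zero hfm.ne_zero hi)
  rw [hfm.natDegree_mul' hi] at h4
  push_cast at h4
  linarith

end Main

theorem lagp : LAGPStmt := by
  intro F _ ι _ _ G b κ _ _ u hG h0 hdeg hb hdet hH
  classical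
  set H : Matrix κ κ F := Matrix.of fun e e' => lk G (u e) (u e') with hHdef
  have hHsym : Hᵀ = H := by
    ext e e'
    exact lk_symm hG (u e') (u e)
  have hHu : IsUnit H.det := isUnit_iff_ne_zero.2 hH
  have hHi : H⁻¹ᵀ = H⁻¹ := by
    rw [Matrix.transpose_nonsing_inv, hHsym]
  -- the map
  set φ : (ι → F[X]) → κ → F := fun x e => lk G x (u e) with hφ
  -- a lift of a vector
  set up : (κ → F) → ι → F[X] := fun v => ∑ e, C ((H⁻¹ *ᵥ v) e) • u e with hup
  have hφup : ∀ v, φ (up v) = v := by
    intro v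
    ext e'
    simp only [hφ, hup]
    rw [lk_sum]
    have h1 : ∀ e, lk G (C ((H⁻¹ *ᵥ v) e) • u e) (u e') = H e' e * (H⁻¹ *ᵥ v) e := by
      intro e
      rw [lk_smul]
      have : H e' e = lk G (u e) (u e') := by
        rw [← hHsym]
        rfl
      rw [this]
      ring
    simp only [h1]
    have h2 : ∑ e, H e' e * (H⁻¹ *ᵥ v) e = (H *ᵥ (H⁻¹ *ᵥ v)) e' := rfl
    rw [h2, Matrix.mulVec_mulVec, Matrix.mul_nonsing_inv _ hHu, Matrix.one_mulVec]
  have hφsub : ∀ x y, φ (x - y) = φ x - φ y := by
    intro x y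
    ext e
    simp only [hφ, Pi.sub_apply]
    have h1 : lk G x (u e) = lk G (x - y) (u e) + lk G y (u e) := by
      rw [← lk_add, sub_add_cancel]
    rw [h1]
    ring
  have hker : ∀ x, φ x = 0 → ∃ z, x = G *ᵥ z := fun x hx => hdet x fun e => congrFun hx e
  have hpair : ∀ x y, φ x ⬝ᵥ (H⁻¹ *ᵥ φ y) = lk G x y := by
    intro x y
    obtain ⟨z, hz⟩ := hker (y - up (φ y)) (by rw [hφsub, hφup, sub_self])
    have h1 : y = up (φ y) + G *ᵥ z := by
      rw [← hz]
      ring
    have h2 : lk G x y = lk G x (up (φ y)) := by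
      conv_lhs => rw [h1]
      rw [lk_symm hG, lk_add, lk_symm hG _ x, lk_symm hG _ x, lk_im h0, add_zero]
    rw [h2, lk_symm hG]
    simp only [hup]
    rw [lk_sum, dotProduct]
    apply Finset.sum_congr rfl
    intro e _
    rw [lk_smul, lk_symm hG]
    ring
  -- the subspace
  let S : Submodule F (κ → F) :=
    { carrier := {v | ∃ x, Small b x ∧ φ x = v}
      add_mem' := by
        rintro v w ⟨x, hx, rfl⟩ ⟨y, hy, rfl⟩
        refine ⟨x + y, fun i => dadd (hx i) (hy i), ?_⟩
        ext e
        exact lk_add G x y (u e)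
      zero_mem' := by
        refine ⟨0, fun i => dzero _, ?_⟩
        ext e
        exact lk_zero G (u e)
      smul_mem' := by
        rintro c v ⟨x, hx, rfl⟩
        refine ⟨C c • x, fun i => dCmul c (hx i), ?_⟩
        ext e
        exact lk_smul G c x (u e) }
  have hSiso : ∀ v ∈ S, ∀ w ∈ S, v ⬝ᵥ (H⁻¹ *ᵥ w) = 0 := by
    rintro v ⟨x, hx, rfl⟩ w ⟨y, hy, rfl⟩
    rw [hpair]
    exact iso h0 b hdeg hb x y hx hy
  have hSperp : ∀ w, (∀ v ∈ S, v ⬝ᵥ (H⁻¹ *ᵥ w) = 0) → w ∈ S := by
    intro w hw
    obtain ⟨z, hz⟩ := perp h0 b hdeg (up w) (by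
      intro y hy
      have := hw (φ y) ⟨y, hy, rfl⟩
      rw [← hφup w, hpair] at this
      exact this)
    refine ⟨_, hz, ?_⟩
    rw [hφsub, hφup]
    have h1 : φ (G *ᵥ z) = 0 := by
      ext e
      simp only [hφ]
      rw [lk_symm hG, lk_im h0]
      rfl
    rw [h1, sub_zero]
  -- the dimension
  have h1 : (H⁻¹).det * H.det = 1 := by
    rw [← Matrix.det_mul, Matrix.nonsing_inv_mul _ hHu, Matrix.det_one]
  have hHid : (H⁻¹).det ≠ 0 := left_ne_zero_of_mul_eq_one h1
  set B : LinearMap.BilinForm F (κ → F) := Matrix.toBilin' H⁻¹ with hB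
  have hBnd : B.Nondegenerate := LinearMap.BilinForm.nondegenerate_toBilin'_of_det_ne_zero' _ hHid
  have hBS : B.orthogonal S = S := by
    ext w
    rw [LinearMap.BilinForm.mem_orthogonal_iff]
    constructor
    · intro hw
      apply hSperp
      intro v hv
      have := hw v hv
      rw [hB, Matrix.toBilin'_apply'] at this
      exact this
    · intro hw v hv
      rw [hB, Matrix.toBilin'_apply']
      exact hSiso v hv w hw
  have hfin := LinearMap.BilinForm.finrank_orthogonal hBnd S
  rw [hBS, Module.finrank_pi] at hfin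
  have hle : Module.finrank F S ≤ Fintype.card κ := by
    have := Submodule.finrank_le S
    rwa [Module.finrank_pi] at this
  refine ⟨Module.finrank F S, by omega, ?_⟩
  let bS := Module.finBasis F S
  have hmet := met_sq (Module.finrank F S) (by omega) H⁻¹ hHi (fun i => (bS i : κ → F))
    (by
      have := bS.linearIndependent.map' S.subtype (Submodule.ker_subtype S)
      exact this)
    (fun i j => hSiso _ (bS i).2 _ (bS j).2)
  obtain ⟨s, hs⟩ := hmet
  refine ⟨s * H.det, ?_⟩
  calc (-1) ^ Module.finrank F S * H.det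
      = (-1) ^ Module.finrank F S * H.det * ((H⁻¹).det * H.det) := by rw [h1, mul_one]
    _ = ((-1) ^ Module.finrank F S * (H⁻¹).det) * (H.det * H.det) := by ring
    _ = s * H.det * (s * H.det) := by rw [hs]; ring

end Pool.T1.LAGPp
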