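import Pool.Agent.H30.T1.S4
import Pool.Agent.H29.T1.Conc
import Pool.Agent.H41.HYP.S3

/-!
# T1: statements of the modules, part 3 (reciprocity)

`A`, `B` are the matrices of the forms of a class and of the trivial class over `K`; the form
`A ⊕ -B` is transferred to `F(t)` by the trace.
-/

set_option autoImplicit false

namespace Pool.T1

open Polynomial Matrix Pool.HYP Pool.TOW Pool.AVS IsDedekindDomain

section Defs3

/-- All entries in `I`. -/
def MInI {L : Type} [Field L] {ι κ : Type} (I : Set L) (g : Matrix ι κ L) : Prop :=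
  ∀ i j, g i j ∈ I

/-- Invertible over `I`. -/
def GInI {L : Type} [Field L] {ι : Type} [Fintype ι] [DecidableEq ι] (I : Set L)
    (g : Matrix ι ι L) : Prop :=
  MInI I g ∧ UI I g.det

/-- `ρ` is the residue at `P`. -/
structure Rsd {F : Type} [Field F] (P : F[X]) (ρ : RatFunc F → F) : Prop where
  add : ∀ x y, ρ (x + y) = ρ x + ρ y
  smul : ∀ (c : F) (x : RatFunc F), ρ (rf (C c) * x) = c * ρ x
  zero : ∀ x ∈ IP P, ρ x = 0
  pole : ∀ (a : F[X]) (j : ℕ), ρ (rf a / rf P ^ j) = tau (P ^ j) a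

/-- Local data at `P` for the form `G`: a lattice, given by `g`, and `2 m` vectors `u e` of the dual
lattice which detect the lattice; `δ` is `(-1)^m` times the determinant of their residues. -/
def LocD {F : Type} [Field F] {ι : Type} [Fintype ι] [DecidableEq ι] (P : F[X])
    (G : Matrix ι ι (RatFunc F)) (m : ℕ) (δ : F) : Prop :=
  ∃ (ρ : RatFunc F → F) (g : Matrix ι ι (RatFunc F)) (κ : Type) (_ : Fintype κ)
    (_ : DecidableEq κ) (u : κ → ι → RatFunc F),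
    Rsd P ρ ∧ g.det ≠ 0 ∧ Fintype.card κ = 2 * m ∧ MInI (IP P) (gᵀ * G * g) ∧
    (∀ e i, (gᵀ *ᵥ (G *ᵥ u e)) i ∈ IP P) ∧
    (∀ x : ι → RatFunc F, (∀ i, (gᵀ *ᵥ (G *ᵥ x)) i ∈ IP P) →
      (∀ e, ρ (x ⬝ᵥ (G *ᵥ u e)) = 0) → ∀ i, (g⁻¹ *ᵥ x) i ∈ IP P) ∧
    δ = (-1) ^ m * (Matrix.of fun e e' => ρ (u e ⬝ᵥ (G *ᵥ u e'))).det

/-- The linking form on `F[X]^n / G F[X]^n`. -/
noncomputable def lk {F : Type} [Field F] {ι : Type} [Fintype ι] [DecidableEq ι]
    (G : Matrix ι ι F[X]) (x y : ι → F[X]) : F :=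
  tau (C G.det.leadingCoeff⁻¹ * G.det)
    (C G.det.leadingCoeff⁻¹ * (x ⬝ᵥ (G.adjugate *ᵥ y)))

section Trace

variable {k K : Type} [Field k] [Field K] [Algebra k K] {n N : ℕ}

/-- The matrix of the trace form. -/
noncomputable def trd (ω : Module.Basis (Fin n) k K) : Matrix (Fin n) (Fin n) k :=
  Matrix.of fun i j => Algebra.trace k K (ω i * ω j)

/-- The matrix of the transfer of the form with matrix `A`. -/
noncomputable def trm (ω : Module.Basis (Fin n) k K) (A : Matrix (Fin N) (Fin N) K) :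
    Matrix (Fin N × Fin n) (Fin N × Fin n) k :=
  Matrix.of fun p q => Algebra.trace k K (ω p.2 * ω q.2 * A p.1 q.1)

/-- A matrix over `K` as a matrix over `k`. -/
noncomputable def lmm (ω : Module.Basis (Fin n) k K) (g : Matrix (Fin N) (Fin N) K) :
    Matrix (Fin N × Fin n) (Fin N × Fin n) k :=
  Matrix.of fun p q => Algebra.leftMulMatrix ω (g p.1 q.1) p.2 q.2

/-- A vector over `K` as a vector over `k`. -/
noncomputable def cv (ω : Module.Basis (Fin n) k K) (z : Fin N → K) : Fin N × Fin n → k :=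
  fun p => ω.repr (z p.1) p.2

end Trace

/-- Up to the second order, `A` is a unit plus `ϖ` times an invertible matrix. -/
def BlkQ {K : Type} [Field K] (I : Set K) (ϖ : K) {m : ℕ}
    (A : Matrix (Fin (m + 1)) (Fin (m + 1)) K) : Prop :=
  UI I (A 0 0) ∧ (∀ j : Fin m, A 0 j.succ / ϖ ∈ I ∧ A j.succ 0 / ϖ ∈ I) ∧
    (∀ i j : Fin m, A i.succ j.succ / ϖ ∈ I) ∧
    UI I (Matrix.of fun i j : Fin m => A i.succ j.succ / ϖ).det

/-- The determinant of the second block divided by `ϖ`. -/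
noncomputable def dsc {K : Type} [Field K] (ϖ : K) {m : ℕ}
    (A : Matrix (Fin (m + 1)) (Fin (m + 1)) K) : K :=
  (Matrix.of fun i j : Fin m => A i.succ j.succ / ϖ).det

/-- `x` is a square modulo `ϖ`. -/
def SqQ {K : Type} [Field K] (I : Set K) (ϖ x : K) : Prop := ∃ y ∈ I, (x - y ^ 2) / ϖ ∈ I

/-- `kᵀ A k` and `B` are as near as we please. -/
def Near {K : Type} [Field K] {N : ℕ} (I : Set K) (A B : Matrix (Fin N) (Fin N) K) : Prop :=
  ∀ a : K, a ≠ 0 → ∃ k : Matrix (Fin N) (Fin N) K, k.det ≠ 0 ∧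
    ∀ i j, (kᵀ * A * k - B) i j / a ∈ I

/-- There is a self-dual lattice. -/
def SD {K : Type} [Field K] {N : ℕ} (I : Set K) (A : Matrix (Fin N) (Fin N) K) : Prop :=
  ∃ k : Matrix (Fin N) (Fin N) K, k.det ≠ 0 ∧ GIn I (kᵀ * A * k)

section Con3

variable {F : Type} [Field F] {K : Type} [Field K] [Algebra (RatFunc F) K]

/-- The prime `P` lies above `p`. -/
def Abv (p : F[X]) (P : HeightOneSpectrum (RR F K)) : Prop := xR F K p ∈ P.asIdeal

/-- The elements of `K` regular at all primes above `p`. -/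
def IS (K : Type) [Field K] [Algebra (RatFunc F) K] (p : F[X]) : Set K :=
  {a | ∀ P : HeightOneSpectrum (RR F K), Abv p P → a ∈ RP K P}

/-- `ω` consists of elements of `R` and its discriminant is a unit at `p`. -/
def Good {n : ℕ} (ω : Module.Basis (Fin n) (RatFunc F) K) (p : F[X]) : Prop :=
  (∀ i, ω i ∈ RS F K) ∧ UI (IP p) (trd ω).det

end Con3

end Defs3

/-! ### Over `F(t)` -/

/-- RSD: the residue at `P`.  (`F(t) / IP P` is `F[t][1/P] / F[t]`; the second claim: if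
`x` is not in `IP P`, `P^j x` is a unit of `IP P` for some `j > 0`.) -/
def RSDStmt : Prop :=
  ∀ (F : Type) [Field F] (P : F[X]), P.Monic → Irreducible P →
    (∃ ρ : RatFunc F → F, Rsd P ρ) ∧
    ∀ ρ : RatFunc F → F, Rsd P ρ → ∀ x : RatFunc F, (∀ h : F[X], ρ (rf h * x) = 0) → x ∈ IP P

/-- LAGP: the Lagrangian subspace (helper14). -/
def LAGPStmt : Prop :=
  ∀ (F : Type) [Field F] (ι : Type) [Fintype ι] [DecidableEq ι] (G : Matrix ι ι F[X])
    (b : ι → ℤ) (κ : Type) [Fintype κ] [DecidableEq κ] (u : κ → ι → F[X]), Gᵀ = G →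
    G.det ≠ 0 → (∀ i j, DegLe (G i j) (b i + b j)) → (G.det.natDegree : ℤ) = 2 * ∑ i, b i →
    (∀ x : ι → F[X], (∀ e, lk G x (u e) = 0) → ∃ z, x = G *ᵥ z) →
    (Matrix.of fun e e' => lk G (u e) (u e')).det ≠ 0 →
    ∃ m : ℕ, Fintype.card κ = 2 * m ∧
      IsSquare ((-1) ^ m * (Matrix.of fun e e' => lk G (u e) (u e')).det)

/-- RCL: reciprocity over `F(t)`.  (GLUN and BIRN give a basis of the lattice, the local vectors
`u e` become global ones which are in the lattice at the other primes; LAGP.) -/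
def RCLStmt : Prop :=
  ∀ (F : Type) [Field F] (ι : Type) [Fintype ι] [DecidableEq ι] (G : Matrix ι ι (RatFunc F))
    (T : Finset F[X]) (m : F[X] → ℕ) (δ : F[X] → F), Gᵀ = G → G.det ≠ 0 →
    (∀ P ∈ T, P.Monic ∧ Irreducible P) → (∀ P ∈ T, LocD P G (m P) (δ P) ∧ δ P ≠ 0) →
    (∀ P : F[X], P.Monic → Irreducible P → P ∉ T →
      ∃ g : Matrix ι ι (RatFunc F), g.det ≠ 0 ∧ GInI (IP P) (gᵀ * G * g)) →
    (∃ g : Matrix ι ι (RatFunc F), g.det ≠ 0 ∧ GInI (Iinf F) (gᵀ * G * g)) →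
    IsSquare (∏ P ∈ T, δ P)

/-- HYB: if `A` is near to `B`, the form `A ⊕ -B` has a self-dual lattice.  (In the basis
`(u, u)`, `(c v, -c v)` with `c = (2 B)⁻¹` the matrix is near to `(0 1; 1 0)`.) -/
def HYBStmt : Prop :=
  ∀ (L : Type) [Field L] (O : ValuationSubring L) (ι : Type) [Fintype ι] [DecidableEq ι]
    (B : Matrix ι ι L), (2 : L) ≠ 0 → (∃ π : L, π ≠ 0 ∧ π ∈ O ∧ π⁻¹ ∉ O) → Bᵀ = B →
    B.det ≠ 0 → ∃ a : L, a ≠ 0 ∧ ∀ A : Matrix ι ι L, Aᵀ = A →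
      (∀ i j, (A i j - B i j) / a ∈ O) → ∃ g : Matrix (ι ⊕ ι) (ι ⊕ ι) L, g.det ≠ 0 ∧
        GInI (O : Set L) (gᵀ * Matrix.fromBlocks A 0 0 (-B) * g)

/-- IPV: `IP P` and `Iinf F` are discrete valuation rings. -/
def IPVStmt : Prop :=
  ∀ (F : Type) [Field F],
    (∀ P : F[X], P.Monic → Irreducible P → ∃ O : ValuationSubring (RatFunc F),
      (O : Set (RatFunc F)) = IP P ∧ Unif O (rf P) ∧
      ∀ x : RatFunc F, x ≠ 0 → ∃ n : ℤ, UI (O : Set (RatFunc F)) (x / rf P ^ n)) ∧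
    ∃ O : ValuationSubring (RatFunc F),
      (O : Set (RatFunc F)) = Iinf F ∧ Unif O (RatFunc.X)⁻¹ ∧
      ∀ x : RatFunc F, x ≠ 0 → ∃ n : ℤ, UI (O : Set (RatFunc F)) (x * RatFunc.X ^ n)

/-- LDS: change of the basis, and addition of a form with a self-dual lattice. -/
def LDSStmt : Prop :=
  ∀ (F : Type) [Field F] (P : F[X]), P.Monic → Irreducible P →
    ∀ (ι κ : Type) [Fintype ι] [DecidableEq ι] [Fintype κ] [DecidableEq κ]
    (G h : Matrix ι ι (RatFunc F)) (G' h' : Matrix κ κ (RatFunc F)) (m : ℕ) (δ : F),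
    h.det ≠ 0 → LocD P (hᵀ * G * h) m δ → h'.det ≠ 0 → GInI (IP P) (h'ᵀ * G' * h') →
    LocD P (Matrix.fromBlocks G 0 0 G') m δ

/-! ### Algebra -/

/-- TRF: the transfer. -/
def TRFStmt : Prop :=
  ∀ (k K : Type) [Field k] [Field K] [Algebra k K] [FiniteDimensional k K]
    [Algebra.IsSeparable k K] (n N : ℕ) (ω : Module.Basis (Fin n) k K),
    (∀ A g : Matrix (Fin N) (Fin N) K, (lmm ω g)ᵀ * trm ω A * lmm ω g = trm ω (gᵀ * A * g)) ∧
    (∀ A : Matrix (Fin N) (Fin N) K,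
      (trm ω A).det = (trd ω).det ^ N * Algebra.norm k A.det) ∧
    (∀ g : Matrix (Fin N) (Fin N) K, (lmm ω g).det = Algebra.norm k g.det) ∧
    (trd ω).det ≠ 0 ∧
    (∀ A : Matrix (Fin N) (Fin N) K, Aᵀ = A → (trm ω A)ᵀ = trm ω A) ∧
    (∀ (A : Matrix (Fin N) (Fin N) K) (y z : Fin N → K),
      cv ω y ⬝ᵥ (trm ω A *ᵥ cv ω z) = Algebra.trace k K (y ⬝ᵥ (A *ᵥ z))) ∧
    (∀ (g : Matrix (Fin N) (Fin N) K) (z : Fin N → K), lmm ω g *ᵥ cv ω z = cv ω (g *ᵥ z)) ∧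
    (∀ g g' : Matrix (Fin N) (Fin N) K, lmm ω (g * g') = lmm ω g * lmm ω g') ∧
    ∀ v : Fin N × Fin n → k, ∃ z : Fin N → K, cv ω z = v

/-- BKD: the determinant of the transfer of a form over a finite extension by a nonzero linear
map (helper14). -/
def BKDStmt : Prop :=
  ∀ (F E : Type) [Field F] [Field E] [Algebra F E] (d : ℕ) (ω : Module.Basis (Fin d) F E)
    (l : E →ₗ[F] F), l ≠ 0 →
    (Matrix.of fun i j : Fin d => l (ω i * ω j)).det ≠ 0 ∧
    ∀ (k : ℕ) (M : Matrix (Fin k) (Fin k) E),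
      (Matrix.of fun p q : Fin k × Fin d => l (ω p.2 * ω q.2 * M p.1 q.1)).det =
        (Matrix.of fun i j : Fin d => l (ω i * ω j)).det ^ k * Algebra.norm F M.det

/-- FSQ: squares in finite fields (helper14). -/
def FSQStmt : Prop :=
  (∀ (F : Type) [Field F] [Finite F], (2 : F) ≠ 0 → ∀ (ι : Type) (s : Finset ι) (δ : ι → F),
    (∀ i ∈ s, δ i ≠ 0) → (IsSquare (∏ i ∈ s, δ i) ↔ Even {i | i ∈ s ∧ ¬ IsSquare (δ i)}.ncard)) ∧
  ∀ (F E : Type) [Field F] [Field E] [Algebra F E] [Finite E], (2 : F) ≠ 0 → ∀ a : E, a ≠ 0 →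
    (IsSquare (Algebra.norm F a) ↔ IsSquare a)

/-! ### Primes -/

/-- VQB: the elements regular at `P`. -/
def VQBStmt : Prop :=
  ∀ (R : Type) [CommRing R] [IsDedekindDomain R] (K : Type) [Field K] [Algebra R K]
    [IsFractionRing R K] (P : HeightOneSpectrum R) (ϖ : R), ϖ ∈ P.asIdeal → ϖ ∉ P.asIdeal ^ 2 →
    (∃ O : ValuationSubring K, (O : Set K) = RP K P ∧ Unif O (algebraMap R K ϖ) ∧
      ∀ x : K, x ≠ 0 → ∃ n : ℤ, UI (O : Set K) (x / algebraMap R K ϖ ^ n)) ∧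
    (∀ a : R, algebraMap R K a / algebraMap R K ϖ ∈ RP K P ↔ a ∈ P.asIdeal) ∧
    ∀ x ∈ RP K P, ∃ a : R, (x - algebraMap R K a) / algebraMap R K ϖ ∈ RP K P

/-- WAP: weak approximation. -/
def WAPStmt : Prop :=
  ∀ (R : Type) [CommRing R] [IsDedekindDomain R] (K : Type) [Field K] [Algebra R K]
    [IsFractionRing R K] (S : Finset (HeightOneSpectrum R)) (a : K), a ≠ 0 →
    (∀ x : HeightOneSpectrum R → K, ∃ y : K, ∀ P ∈ S, (y - x P) / a ∈ RP K P) ∧
    ∀ (N : ℕ) (g : HeightOneSpectrum R → Matrix (Fin N) (Fin N) K), (∀ P ∈ S, (g P).det ≠ 0) →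
      ∃ h : Matrix (Fin N) (Fin N) K, h.det ≠ 0 ∧
        ∀ P ∈ S, ∀ i j, ((g P)⁻¹ * h - 1) i j / a ∈ RP K P

/-- SEMA: the primes above `p`. -/
def SEMAStmt : Prop :=
  ∀ (F : Type) [Field F] (K : Type) [Field K] [Algebra (RatFunc F) K]
    [FiniteDimensional (RatFunc F) K] [Algebra.IsSeparable (RatFunc F) K],
    (∀ p : F[X], p ≠ 0 → {P : HeightOneSpectrum (RR F K) | Abv p P}.Finite) ∧
    (∀ p : F[X], p.Monic → Irreducible p → ∃ P : HeightOneSpectrum (RR F K), Abv p P) ∧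
    (∀ P : HeightOneSpectrum (RR F K), ∃ p : F[X], p.Monic ∧ Irreducible p ∧ Abv p P ∧
      ∀ q : F[X], q.Monic → Irreducible q → Abv q P → q = p) ∧
    ∀ p : F[X], p.Monic → Irreducible p → ∀ P : HeightOneSpectrum (RR F K), Abv p P →
      ∀ x : RatFunc F, algebraMap (RatFunc F) K x ∈ RP K P ↔ x ∈ IP p

/-- SEMB: the elements regular at all primes above `p`.  (The second claim: the ideal of the `h`
in `F[t]` with `h a` in `R` is not contained in `(p)`.) -/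
def SEMBStmt : Prop :=
  ∀ (F : Type) [Field F] (K : Type) [Field K] [Algebra (RatFunc F) K]
    [FiniteDimensional (RatFunc F) K] [Algebra.IsSeparable (RatFunc F) K] (p : F[X]), p.Monic →
    Irreducible p → ∀ a : K, a ∈ IS (F := F) K p →
    (∃ h : F[X], ¬ p ∣ h ∧ algebraMap (RatFunc F) K (rf h) * a ∈ RS F K) ∧
    Algebra.trace (RatFunc F) K a ∈ IP p ∧ Algebra.norm (RatFunc F) a ∈ IP p

/-- SEMC: a basis at the primes not dividing the discriminant. -/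
def SEMCStmt : Prop :=
  ∀ (F : Type) [Field F] (K : Type) [Field K] [Algebra (RatFunc F) K]
    [FiniteDimensional (RatFunc F) K] [Algebra.IsSeparable (RatFunc F) K] (n : ℕ)
    (ω : Module.Basis (Fin n) (RatFunc F) K) (p : F[X]), p.Monic → Irreducible p → Good ω p →
    ∀ a : K, (a ∈ IS (F := F) K p ↔ ∀ i, ω.repr a i ∈ IP p) ∧
      (a ∈ IS (F := F) K p ↔ ∀ i, Algebra.trace (RatFunc F) K (a * ω i) ∈ IP p)

/-- BAS: existence of `ω`. -/
def BASStmt : Prop :=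
  ∀ (F : Type) [Field F] (K : Type) [Field K] [Algebra (RatFunc F) K]
    [FiniteDimensional (RatFunc F) K] [Algebra.IsSeparable (RatFunc F) K],
    ∃ (n : ℕ) (ω : Module.Basis (Fin n) (RatFunc F) K), (∀ i, ω i ∈ RS F K) ∧
      {p : F[X] | p.Monic ∧ Irreducible p ∧ ¬ Good ω p}.Finite

/-- OIN: the elements of `O` are integral over `Iinf F`. -/
def OINStmt : Prop :=
  ∀ (F : Type) [Field F] [Finite F] (K : Type) [Field K] [Algebra (RatFunc F) K]
    [FiniteDimensional (RatFunc F) K] [Algebra.IsSeparable (RatFunc F) K]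
    (O : ValuationSubring K), OnePole F O →
    (∀ x : RatFunc F, algebraMap (RatFunc F) K x ∈ O ↔ x ∈ Iinf F) ∧
    (∀ a ∈ O, Algebra.trace (RatFunc F) K a ∈ Iinf F) ∧
    ∀ a : K, ∃ x : RatFunc F, x ≠ 0 ∧ algebraMap (RatFunc F) K x * a ∈ O

/-! ### The transferred form -/

/-- GDU: a good prime, self-dual lattices. -/
def GDUStmt : Prop :=
  ∀ (F : Type) [Field F] (K : Type) [Field K] [Algebra (RatFunc F) K]
    [FiniteDimensional (RatFunc F) K] [Algebra.IsSeparable (RatFunc F) K] (n N : ℕ)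
    (ω : Module.Basis (Fin n) (RatFunc F) K) (p : F[X]), p.Monic → Irreducible p → Good ω p →
    ∀ A : Matrix (Fin N) (Fin N) K,
    (∀ P : HeightOneSpectrum (RR F K), Abv p P → SD (RP K P) A) →
    ∃ g : Matrix (Fin N × Fin n) (Fin N × Fin n) (RatFunc F), g.det ≠ 0 ∧
      GInI (IP p) (gᵀ * trm ω A * g)

/-- BDP: a bad prime. -/
def BDPStmt : Prop :=
  ∀ (F : Type) [Field F], (2 : F) ≠ 0 → ∀ (K : Type) [Field K] [Algebra (RatFunc F) K]
    [FiniteDimensional (RatFunc F) K] [Algebra.IsSeparable (RatFunc F) K] (n N : ℕ)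
    (ω : Module.Basis (Fin n) (RatFunc F) K) (p : F[X]), p.Monic → Irreducible p →
    ∀ A B : Matrix (Fin N) (Fin N) K, Aᵀ = A → Bᵀ = B → B.det ≠ 0 →
    (∀ P : HeightOneSpectrum (RR F K), Abv p P → Near (RP K P) A B) →
    ∃ g : Matrix ((Fin N × Fin n) ⊕ (Fin N × Fin n)) ((Fin N × Fin n) ⊕ (Fin N × Fin n))
      (RatFunc F), g.det ≠ 0 ∧
      GInI (IP p) (gᵀ * Matrix.fromBlocks (trm ω A) 0 0 (-trm ω B) * g)

/-- BDI: infinity. -/
def BDIStmt : Prop :=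
  ∀ (F : Type) [Field F] [Finite F], (2 : F) ≠ 0 → ∀ (K : Type) [Field K] [Algebra (RatFunc F) K]
    [FiniteDimensional (RatFunc F) K] [Algebra.IsSeparable (RatFunc F) K]
    (O : ValuationSubring K), OnePole F O → ∀ (n N : ℕ)
    (ω : Module.Basis (Fin n) (RatFunc F) K) (A B : Matrix (Fin N) (Fin N) K), Aᵀ = A →
    Bᵀ = B → B.det ≠ 0 → Near (O : Set K) A B →
    ∃ g : Matrix ((Fin N × Fin n) ⊕ (Fin N × Fin n)) ((Fin N × Fin n) ⊕ (Fin N × Fin n))
      (RatFunc F), g.det ≠ 0 ∧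
      GInI (Iinf F) (gᵀ * Matrix.fromBlocks (trm ω A) 0 0 (-trm ω B) * g)

/-- LDT: a good prime, the main computation.  (`u` runs through the coordinates of `η z` for
`P ∈ T` above `p`, `η` in a basis of `R/P` over `F`, lifted to elements congruent to `0` at the other
primes above `p`, and `z = e_j / ϖ` for `j ≥ 1` at `P`, regular at the other primes above `p`.) -/
def LDTStmt : Prop :=
  ∀ (F : Type) [Field F] [Finite F], (2 : F) ≠ 0 → ∀ (K : Type) [Field K]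
    [Algebra (RatFunc F) K] [FiniteDimensional (RatFunc F) K] [Algebra.IsSeparable (RatFunc F) K]
    (n g : ℕ) (ω : Module.Basis (Fin n) (RatFunc F) K) (p : F[X]), p.Monic → Irreducible p →
    Good ω p → ∀ (T : Finset (HeightOneSpectrum (RR F K)))
    (ϖ : HeightOneSpectrum (RR F K) → RR F K),
    (∀ P ∈ T, ϖ P ∈ P.asIdeal ∧ ϖ P ∉ P.asIdeal ^ 2) →
    ∀ A : Matrix (Fin (2 * g + 1)) (Fin (2 * g + 1)) K, Aᵀ = A → MIn (IS (F := F) K p) A →
    (∀ P : HeightOneSpectrum (RR F K), Abv p P → P ∉ T → UI (RP K P) A.det) →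
    (∀ P ∈ T, Abv p P → BlkQ (RP K P) (ϖ P : K) A) →
    ∃ (m : ℕ) (δ : F), δ ≠ 0 ∧ LocD p (trm ω A) m δ ∧
      (IsSquare δ ↔ Even {P | P ∈ T ∧ Abv p P ∧
        ¬ SqQ (RP K P) (ϖ P : K) ((-1) ^ g * dsc (ϖ P : K) A)}.ncard)

/-- LDP: a good prime. -/
def LDPStmt : Prop :=
  ∀ (F : Type) [Field F] [Finite F], (2 : F) ≠ 0 → ∀ (K : Type) [Field K]
    [Algebra (RatFunc F) K] [FiniteDimensional (RatFunc F) K] [Algebra.IsSeparable (RatFunc F) K]
    (n g : ℕ) (ω : Module.Basis (Fin n) (RatFunc F) K) (p : F[X]), p.Monic → Irreducible p →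
    Good ω p → ∀ (T : Finset (HeightOneSpectrum (RR F K)))
    (ϖ : HeightOneSpectrum (RR F K) → RR F K) (d : HeightOneSpectrum (RR F K) → K),
    (∀ P ∈ T, ϖ P ∈ P.asIdeal ∧ ϖ P ∉ P.asIdeal ^ 2) →
    ∀ A B : Matrix (Fin (2 * g + 1)) (Fin (2 * g + 1)) K, Aᵀ = A → Bᵀ = B → A.det ≠ 0 →
    B.det ≠ 0 → (∀ P : HeightOneSpectrum (RR F K), Abv p P → SD (RP K P) B) →
    (∀ P : HeightOneSpectrum (RR F K), Abv p P → P ∉ T → SD (RP K P) A) →
    (∀ P ∈ T, Abv p P → ∃ k : Matrix (Fin (2 * g + 1)) (Fin (2 * g + 1)) K, k.det ≠ 0 ∧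
      BlkQ (RP K P) (ϖ P : K) (kᵀ * A * k) ∧ d P = dsc (ϖ P : K) (kᵀ * A * k)) →
    ∃ (m : ℕ) (δ : F), δ ≠ 0 ∧
      LocD p (Matrix.fromBlocks (trm ω A) 0 0 (-trm ω B)) m δ ∧
      (IsSquare δ ↔ Even {P | P ∈ T ∧ Abv p P ∧
        ¬ SqQ (RP K P) (ϖ P : K) ((-1) ^ g * d P)}.ncard)

/-- RCPK: reciprocity for a pair of forms over `K`. -/
def RCPKStmt : Prop :=
  ∀ (F : Type) [Field F] [Finite F], (2 : F) ≠ 0 → ∀ (K : Type) [Field K]
    [Algebra (RatFunc F) K] [FiniteDimensional (RatFunc F) K] [Algebra.IsSeparable (RatFunc F) K]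
    (O : ValuationSubring K), OnePole F O →
    ∃ Ram : Finset (HeightOneSpectrum (RR F K)), ∀ (g : ℕ)
    (T : Finset (HeightOneSpectrum (RR F K))) (ϖ : HeightOneSpectrum (RR F K) → RR F K)
    (d : HeightOneSpectrum (RR F K) → K), Disjoint T Ram →
    (∀ P ∈ T, ϖ P ∈ P.asIdeal ∧ ϖ P ∉ P.asIdeal ^ 2) →
    ∀ A B : Matrix (Fin (2 * g + 1)) (Fin (2 * g + 1)) K, Aᵀ = A → Bᵀ = B → A.det ≠ 0 →
    B.det ≠ 0 → Near (O : Set K) A B → (∀ P ∈ Ram, Near (RP K P) A B) →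
    (∀ P : HeightOneSpectrum (RR F K), SD (RP K P) B) →
    (∀ P : HeightOneSpectrum (RR F K), P ∉ T → SD (RP K P) A) →
    (∀ P ∈ T, ∃ k : Matrix (Fin (2 * g + 1)) (Fin (2 * g + 1)) K, k.det ≠ 0 ∧
      BlkQ (RP K P) (ϖ P : K) (kᵀ * A * k) ∧ d P = dsc (ϖ P : K) (kᵀ * A * k)) →
    Even {P | P ∈ T ∧ ¬ SqQ (RP K P) (ϖ P : K) ((-1) ^ g * d P)}.ncard

/-! ### The forms of the classes -/

/-- USG: the form of the class of a unit has a self-dual lattice. -/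
def USGStmt : Prop :=
  ∀ (R : Type) [CommRing R] [IsDedekindDomain R] (K : Type) [Field K] [Algebra R K]
    [IsFractionRing R K] (P : HeightOneSpectrum R) (n : ℕ) (f : R[X]) (α : K[X]), f.Monic →
    f.natDegree = n → IsCoprime α (fk K f) → US P.asIdeal f α →
    SD (RP K P) (gr 0 n (fk K f) α)

/-- LSA: `f` irreducible modulo `π` of odd degree: a class of square norm is nearly trivial.
(The order of `α` is even because the degree is odd, a unit with square norm is a square in the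
residue field; then `s ↦ s (3 - α s²) / 2`.) -/
def LSAStmt : Prop :=
  ∀ (K : Type) [Field K] (V : ValuationSubring K) (π : K), (2 : K) ≠ 0 → (2 : K)⁻¹ ∈ V →
    Unif V π → (∀ x : K, x ≠ 0 → ∃ n : ℤ, UI (V : Set K) (x / π ^ n)) →
    Finite (IsLocalRing.ResidueField V) → ∀ (f : V[X]) (α : K[X]), f.Monic →
    Odd f.natDegree → Irreducible (rd V f) → IsCoprime α (oL V f) → NSq (oL V f) α →
    ∀ a : K, a ≠ 0 → ∃ (s : K[X]) (p : V[X]), IsCoprime s (oL V f) ∧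
      oL V f ∣ α * s ^ 2 - 1 - C a * oL V p

/-- LSQ: the same for the forms, after scaling of the roots. -/
def LSQStmt : Prop :=
  ∀ (K : Type) [Field K] (V : ValuationSubring K) (π : K), (2 : K) ≠ 0 → (2 : K)⁻¹ ∈ V →
    Unif V π → (∀ x : K, x ≠ 0 → ∃ n : ℤ, UI (V : Set K) (x / π ^ n)) →
    Finite (IsLocalRing.ResidueField V) → ∀ (n : ℕ) (f : K[X]) (d : K) (f₀ : V[X]) (α : K[X]),
    f.Monic → f.natDegree = n → Odd n → d ≠ 0 → f.scaleRoots d = oL V f₀ →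
    Irreducible (rd V f₀) → IsCoprime α f → NSq f α → Near (V : Set K) (gr 0 n f α) (gr 0 n f 1)

/-- QSL: the form of a class of type `x` over the completion.  (DEC, UNR, NMU of HYP.) -/
def QSLStmt : Prop :=
  ∀ (L : Type) [Field L] (O : ValuationSubring L) (π : L), Loc L O π →
    ∀ (g : ℕ) (c : O) (γ : O[X]), 1 ≤ g → OkL O g γ →
    ∀ (h : L[X]) (x : Ty), IsCoprime h (oL O ((X - C c) * γ)) →
      NSq (oL O ((X - C c) * γ)) h → TyL O π c γ x h →
      (x.1 = 0 → SD (O : Set L) (gr 0 (2 * g + 1) (oL O ((X - C c) * γ)) h)) ∧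
      (x.1 = 1 → ∃ k : Matrix (Fin (2 * g + 1)) (Fin (2 * g + 1)) L, k.det ≠ 0 ∧
        BlkQ (O : Set L) π (kᵀ * gr 0 (2 * g + 1) (oL O ((X - C c) * γ)) h * k) ∧
        (SqQ (O : Set L) π ((-1) ^ g *
          dsc π (kᵀ * gr 0 (2 * g + 1) (oL O ((X - C c) * γ)) h * k)) ↔ x.2 = 0))

/-- QSK: from the completion to `K`. -/
def QSKStmt : Prop :=
  ∀ (R : Type) [CommRing R] [IsDedekindDomain R] (K : Type) [Field K] [Algebra R K]
    [IsFractionRing R K] (P : HeightOneSpectrum R) (ϖ : R) (L : Type) [Field L]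
    (O' : ValuationSubring L) (ι : K →+* L), CompP P ϖ L O' ι →
    ϖ ∈ P.asIdeal ∧ ϖ ∉ P.asIdeal ^ 2 ∧ ∀ (g : ℕ) (A : Matrix (Fin (2 * g + 1))
      (Fin (2 * g + 1)) K), Aᵀ = A → (SD (O' : Set L) (A.map ι) → SD (RP K P) A) ∧
      ∀ k : Matrix (Fin (2 * g + 1)) (Fin (2 * g + 1)) L, k.det ≠ 0 →
        BlkQ (O' : Set L) (ι (algebraMap R K ϖ)) (kᵀ * A.map ι * k) →
        ∃ k' : Matrix (Fin (2 * g + 1)) (Fin (2 * g + 1)) K, k'.det ≠ 0 ∧
          BlkQ (RP K P) (algebraMap R K ϖ) (k'ᵀ * A * k') ∧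
          (SqQ (RP K P) (algebraMap R K ϖ) ((-1) ^ g * dsc (algebraMap R K ϖ) (k'ᵀ * A * k')) ↔
            SqQ (O' : Set L) (ι (algebraMap R K ϖ))
              ((-1) ^ g * dsc (ι (algebraMap R K ϖ)) (kᵀ * A.map ι * k)))

/-- RECI from the modules (RCPK for `A = gr 0 N (fk K f) δ`, `B = gr 0 N (fk K f) 1`, with the set of
the primes of `D.T` where the type of `δ` has `x.1 = 1`; `δ = α, β, α β`). -/
def RECAStmt : Prop :=
  RCPKStmt → USGStmt → LSQStmt → QSLStmt → QSKStmt → VQBStmt → GRIStmt → TYMStmt → RECIStmt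

end Pool.T1
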