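import Pool.Agent.H14.T1.LAGP
import Pool.Agent.H14.T1.BKD
import Pool.Agent.H2.T1.Rcl
import Pool.Agent.H3.T1.TRF
import Pool.Agent.H17.T1.USG
import Pool.Agent.H22.T1.LDT
import Pool.Agent.H23.T1.BDI
import Pool.Agent.H28.T1.VQB
import Pool.Agent.H36.T1.WAP
import Pool.Agent.H43.T1.GDU
import Pool.Agent.H44.T1.LSQ
import Pool.Agent.H49.T1.LDS
import Pool.Agent.H50.T1.HYB
import Pool.Agent.H50.T1.RCPK
import Pool.Agent.H51.T1.BDP
import Pool.Agent.H54.T1.OIN
import Pool.Agent.H66.T1.QSK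
import Pool.Agent.H72.T1.LSA
import Pool.Agent.H77.T1.LDP
import Pool.Agent.H78.T1.GRI
import Pool.Agent.H81.T1.BAS
import Pool.Agent.H81.T1.SEMC
import Pool.Agent.H83.T1.IPV
import Pool.Agent.H85.T1.RECA
import Pool.Agent.H87.T1.RSD
import Pool.Agent.H88.T1.SEMA
import Pool.Agent.H90.T1.QSL
import Pool.Agent.H96.T1.SEMB
import Pool.Agent.H69.HYP.TYM
import Pool.Agent.H74.HYP.UNR
import Pool.Agent.H70.HYP.NMU

/-!
# T1: RECI, reciprocity over a function field
-/

set_option autoImplicit false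

namespace Pool.T1

open Pool.HYP

theorem gduF : GDUStmt := gdu trf wap semb (semc semb)

theorem ldtF : LDTStmt :=
  ldt BKDp.bkd BKDp.fsq rsd trf wap sema semb (semc semb) vqb

theorem ldpF : LDPStmt := ldp ldtF lds gduF wap vqb trf

theorem bdpF : BDPStmt := bdp hyb ipv trf wap sema semb

theorem bdiF : BDIStmt := bdi hyb ipv trf oin

theorem rclF : RCLStmt := Rcl.rcl LAGPp.lagp

theorem rcpkF : RCPKStmt :=
  rcpk rclF ldpF gduF bdpF bdiF bas sema trf BKDp.fsq ipv

theorem qskF : QSKStmt := qsk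

/-- Reciprocity. -/
theorem reci : RECIStmt :=
  reca rcpkF usg (lsq lsa) qsl qskF vqb gri (tym unr nmu)

end Pool.T1
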